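import Mathlib

/-!
# MP_fd0bc0_an: a product of Carleman operators need not be a Carleman operator

On `L²(ℝ)` let `B` be the (closed, densely defined) maximal operator with kernel
`k_B(x,y) = |⌊x⌋| + 1` if `⌊x⌋ = ⌊y⌋` and `0` otherwise, and let `A` be the (everywhere defined)
operator with kernel `k_A(x,y) = 1_{[0,1)}(x) / (|⌊y⌋| + 1)`. For `f_N = 1_{[0,N)}` one gets
`A B f_N = N 1_{[0,1)}`. A Carleman kernel `k` of `AB` would satisfy, for almost every `x ∈ [0,1)`,
`N = ∫_0^N k(x,y) dy ≤ (‖k(x,·)‖² + N) / 2` for all `N`, which is absurd.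
-/

open MeasureTheory Filter Topology

namespace Pool.Agent.Results.MP_fd0bc0_an.ProductNotCarleman

/-- The open interval `(a,b)` with extended real end points. -/
def interval (a b : EReal) : Set ℝ := {x : ℝ | a < (x : EReal) ∧ (x : EReal) < b}

/-- Lebesgue measure on `(a,b)`. -/
noncomputable def leb (a b : EReal) : Measure ℝ := volume.restrict (interval a b)

/-- The complex Hilbert space `L²(μ)`. -/
def L2 (μ : Measure ℝ) : Type := Lp ℂ 2 μ

/-- The Hilbert space norm of `Lp ℂ 2 μ`. -/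
noncomputable instance (μ : Measure ℝ) : NormedAddCommGroup (L2 μ) :=
  Lp.instNormedAddCommGroup (E := ℂ) (p := 2) (μ := μ)

/-- The complex vector space structure of `Lp ℂ 2 μ`. -/
noncomputable instance (μ : Measure ℝ) : NormedSpace ℂ (L2 μ) :=
  Lp.instNormedSpace (E := ℂ) (p := 2) (μ := μ) (𝕜 := ℂ)

/-- A representative of a class `f ∈ L²(μ)`. -/
noncomputable def fn {μ : Measure ℝ} (f : L2 μ) : ℝ → ℂ := (show Lp ℂ 2 μ from f)

/-- `k` is a Carleman kernel: measurable, and `k(x,·) ∈ L²` for almost every `x`. -/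
structure IsCarlemanKernel (μ : Measure ℝ) (k : ℝ → ℝ → ℂ) : Prop where
  measurable : AEStronglyMeasurable (Function.uncurry k) (μ.prod μ)
  memLp : ∀ᵐ x ∂μ, MemLp (k x) 2 μ

/-- Linear operators on `L²(μ)`, possibly unbounded, each with its own domain: a linear subspace
`D(A)` of `L²(μ)` together with a linear map `D(A) → L²(μ)`. -/
abbrev Op (μ : Measure ℝ) := L2 μ →ₗ.[ℂ] L2 μ

/-- `A`, a linear operator with domain `A.domain ⊆ L²(μ)`, is a Carleman operator. -/
def IsCarlemanOperator {μ : Measure ℝ} (A : Op μ) : Prop :=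
  ∃ k : ℝ → ℝ → ℂ, IsCarlemanKernel μ k ∧
    ∀ f : A.domain, fn (A f) =ᵐ[μ] fun x => ∫ y, k x y * fn (f : L2 μ) y ∂μ

/-- The natural domain `D(AB) = {f ∈ D(B) : B f ∈ D(A)}` of the product of two unbounded
operators, see `mem_productDomain`. -/
def productDomain {E : Type} [AddCommGroup E] [Module ℂ E] (A B : E →ₗ.[ℂ] E) :
    Submodule ℂ E :=
  (A.domain.comap B.toFun).map B.domain.subtype

lemma mem_productDomain {E : Type} [AddCommGroup E] [Module ℂ E] (A B : E →ₗ.[ℂ] E) (f : E) :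
    f ∈ productDomain A B ↔ ∃ h : f ∈ B.domain, B ⟨f, h⟩ ∈ A.domain := by
  rw [productDomain, Submodule.mem_map]
  constructor
  · rintro ⟨g, hg, rfl⟩
    exact ⟨g.2, hg⟩
  · rintro ⟨h, h'⟩
    exact ⟨⟨f, h⟩, h', rfl⟩

lemma product_aux {E : Type} [AddCommGroup E] [Module ℂ E] (A B : E →ₗ.[ℂ] E)
    (x : (B.domRestrict (productDomain A B)).domain) :
    B.domRestrict (productDomain A B) x ∈ A.domain := by
  obtain ⟨h, h'⟩ := (mem_productDomain A B x).mp x.2.1
  have e : B.domRestrict (productDomain A B) x = B ⟨x, h⟩ :=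
    LinearPMap.domRestrict_apply rfl
  rw [e]
  exact h'

/-- The product `AB` of two unbounded operators, `(AB) f = A (B f)` with domain
`D(AB) = {f ∈ D(B) : B f ∈ D(A)}`, see `mem_product_domain` and `product_apply`. -/
def product {E : Type} [AddCommGroup E] [Module ℂ E] (A B : E →ₗ.[ℂ] E) : E →ₗ.[ℂ] E :=
  A.comp (B.domRestrict (productDomain A B)) (product_aux A B)

lemma mem_product_domain {E : Type} [AddCommGroup E] [Module ℂ E] (A B : E →ₗ.[ℂ] E) (f : E) :
    f ∈ (product A B).domain ↔ ∃ h : f ∈ B.domain, B ⟨f, h⟩ ∈ A.domain := by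
  constructor
  · intro h
    exact (mem_productDomain A B f).mp h.1
  · intro h
    exact ⟨(mem_productDomain A B f).mpr h, h.1⟩

lemma product_apply {E : Type} [AddCommGroup E] [Module ℂ E] (A B : E →ₗ.[ℂ] E) (f : E)
    (hf : f ∈ (product A B).domain) (h : f ∈ B.domain) (h' : B ⟨f, h⟩ ∈ A.domain) :
    product A B ⟨f, hf⟩ = A ⟨B ⟨f, h⟩, h'⟩ := rfl

/-! ### The machinery, working with `Lp ℂ 2 μ` -/

/-- the same space, transparent -/
noncomputable abbrev LL (μ : Measure ℝ) := Lp ℂ 2 μ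

/-- operators on it -/
noncomputable abbrev OL (μ : Measure ℝ) := LL μ →ₗ.[ℂ] LL μ

variable {μ : Measure ℝ}

/-- The domain `D(A)`. -/
def dom (A : OL μ) : Set (LL μ) := {f | f ∈ LinearPMap.domain A}

/-- The value `A f` for `f ∈ D(A)`. -/
noncomputable def app (A : OL μ) (f : LL μ) (h : f ∈ dom A) : LL μ := LinearPMap.toFun A ⟨f, h⟩

/-- closed graph -/
def Closed (A : OL μ) : Prop := IsClosed {p : LL μ × LL μ | ∃ h : p.1 ∈ dom A, app A p.1 h = p.2}

/-- representation by a Carleman kernel -/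
def IsCarl (A : OL μ) : Prop :=
  ∃ k : ℝ → ℝ → ℂ, IsCarlemanKernel μ k ∧
    ∀ (f : LL μ) (h : f ∈ dom A), (app A f h : ℝ → ℂ) =ᵐ[μ] fun x => ∫ y, k x y * f y ∂μ

lemma isCarl_iff (A : OL μ) : IsCarl A ↔ IsCarlemanOperator (μ := μ) A := by
  constructor
  · rintro ⟨k, hk, h⟩
    exact ⟨k, hk, fun f => h f.1 f.2⟩
  · rintro ⟨k, hk, h⟩
    exact ⟨k, hk, fun f hf => h ⟨f, hf⟩⟩

lemma mem_dom_product (A B : OL μ) (f : LL μ) :
    f ∈ dom (product A B) ↔ ∃ h : f ∈ dom B, app B f h ∈ dom A :=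
  mem_product_domain A B f

lemma app_product (A B : OL μ) (f : LL μ)
    (hf : f ∈ dom (product A B)) (h : f ∈ dom B) (h' : app B f h ∈ dom A) :
    app (product A B) f hf = app A (app B f h) h' := rfl

lemma closed_iff (A : OL μ) : Closed A ↔ A.IsClosed := by
  have : {p : LL μ × LL μ | ∃ h : p.1 ∈ dom A, app A p.1 h = p.2} = (A.graph : Set (LL μ × LL μ)) := by
    ext p
    rw [SetLike.mem_coe, LinearPMap.mem_graph_iff]
    constructor
    · rintro ⟨h, e⟩
      exact ⟨⟨p.1, h⟩, rfl, e⟩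
    · rintro ⟨y, e, e'⟩
      have h : p.1 ∈ dom A := by rw [← e]; exact y.2
      refine ⟨h, ?_⟩
      rw [← e']
      change A ⟨p.1, h⟩ = A y
      congr 1
      exact Subtype.ext e.symm
  rw [Closed, this]; rfl

section maximal

/-- the product of two `L²` functions is integrable -/
lemma integrable_mul_Lp {u : ℝ → ℂ} (hu : MemLp u 2 μ) (f : LL μ) :
    Integrable (fun y => u y * f y) μ :=
  MemLp.integrable_mul hu (Lp.memLp f)

/-- the function `x ↦ ∫ k(x,y) f(y) dy` -/
noncomputable def T (k : ℝ → ℝ → ℂ) (f : LL μ) (x : ℝ) : ℂ := ∫ y, k x y * f y ∂μ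

lemma T_zero (k : ℝ → ℝ → ℂ) : T k (0 : LL μ) = 0 := by
  funext x
  have : (fun y => k x y * (0 : LL μ) y) =ᵐ[μ] fun _ => (0 : ℂ) := by
    filter_upwards [Lp.coeFn_zero ℂ 2 μ] with y hy
    rw [hy]; simp
  rw [T, integral_congr_ae this]
  simp

lemma T_add {k : ℝ → ℝ → ℂ} (hk : ∀ x, MemLp (k x) 2 μ) (f g : LL μ) :
    T k (f + g) = T k f + T k g := by
  funext x
  have : (fun y => k x y * (f + g : LL μ) y) =ᵐ[μ] fun y => k x y * f y + k x y * g y := by
    filter_upwards [Lp.coeFn_add f g] with y hy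
    rw [hy, Pi.add_apply]; ring
  rw [T, integral_congr_ae this, integral_add (integrable_mul_Lp (hk x) f)
            (integrable_mul_Lp (hk x) g)]
  rfl

lemma T_smul (k : ℝ → ℝ → ℂ) (c : ℂ) (f : LL μ) :
    T k (c • f) = c • T k f := by
  funext x
  have : (fun y => k x y * (c • f : LL μ) y) =ᵐ[μ] fun y => c * (k x y * f y) := by
    filter_upwards [Lp.coeFn_smul c f] with y hy
    rw [hy, Pi.smul_apply, smul_eq_mul]; ring
  rw [T, integral_congr_ae this, integral_const_mul]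
  rfl

/-- The maximal operator of a kernel all of whose sections are in `L²`. -/
noncomputable def maxOp (μ : Measure ℝ) (k : ℝ → ℝ → ℂ) (hk : ∀ x, MemLp (k x) 2 μ) :
    OL μ where
  domain :=
    { carrier := {f | MemLp (T k f) 2 μ}
      zero_mem' := by
        change MemLp _ _ _
        rw [T_zero]
        exact MemLp.zero
      add_mem' := by
        intro f g hf hg
        change MemLp _ _ _
        rw [T_add hk]
        exact MemLp.add hf hg
      smul_mem' := by
        intro c f hf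
        change MemLp _ _ _
        rw [T_smul]
        exact MemLp.const_smul hf c }
  toFun :=
    { toFun := fun f => MemLp.toLp (T k (f : LL μ)) f.2
      map_add' := by
        intro f g
        rw [← MemLp.toLp_add]
        exact MemLp.toLp_congr _ _ (Eventually.of_forall fun x => congrFun (T_add hk _ _) x)
      map_smul' := by
        intro c f
        rw [RingHom.id_apply, ← MemLp.toLp_const_smul]
        exact MemLp.toLp_congr _ _ (Eventually.of_forall fun x => congrFun (T_smul _ _ _) x) }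

lemma mem_maxOp {k : ℝ → ℝ → ℂ} {hk : ∀ x, MemLp (k x) 2 μ} {f : LL μ} :
    f ∈ dom (maxOp μ k hk) ↔ MemLp (T k f) 2 μ := Iff.rfl

lemma maxOp_ae {k : ℝ → ℝ → ℂ} {hk : ∀ x, MemLp (k x) 2 μ} (f : LL μ)
    (h : f ∈ dom (maxOp μ k hk)) :
    (app (maxOp μ k hk) f h : ℝ → ℂ) =ᵐ[μ] T k f :=
  MemLp.coeFn_toLp (mem_maxOp.mp h)

lemma isCarleman_maxOp {k : ℝ → ℝ → ℂ} (hk : ∀ x, MemLp (k x) 2 μ)
    (hm : AEStronglyMeasurable (Function.uncurry k) (μ.prod μ)) :
    IsCarl (maxOp μ k hk) :=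
  ⟨k, ⟨hm, Eventually.of_forall hk⟩, maxOp_ae⟩

lemma continuous_section {k : ℝ → ℝ → ℂ} (hk : ∀ x, MemLp (k x) 2 μ) (x : ℝ) :
    Continuous (fun f : LL μ => ∫ y, k x y * f y ∂μ) := by
  have hk' : MemLp (fun y => (starRingEnd ℂ) (k x y)) 2 μ := (hk x).star
  have : (fun f : LL μ => ∫ y, k x y * f y ∂μ) = fun f => inner ℂ (hk'.toLp _) f := by
    funext f
    rw [L2.inner_def]
    refine integral_congr_ae ?_
    filter_upwards [hk'.coeFn_toLp] with y hy
    rw [hy, RCLike.inner_apply]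
    simp [mul_comm]
  rw [this]
  exact continuous_const.inner continuous_id

lemma isClosed_maxOp {k : ℝ → ℝ → ℂ} (hk : ∀ x, MemLp (k x) 2 μ) :
    Closed (maxOp μ k hk) := by
  rw [Closed]
  refine isSeqClosed_iff_isClosed.mp ?_
  intro p q hp hpq
  have h1 : Tendsto (fun n => (p n).1) atTop (𝓝 q.1) := (continuous_fst.tendsto q).comp hpq
  have h2 : Tendsto (fun n => (p n).2) atTop (𝓝 q.2) := (continuous_snd.tendsto q).comp hpq
  have h3 : ∀ n, ((p n).2 : ℝ → ℂ) =ᵐ[μ] T k (p n).1 := by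
    intro n
    obtain ⟨h, hf⟩ := hp n
    rw [← hf]
    exact maxOp_ae _ _
  have h4 : ∀ᵐ x ∂μ, ∀ n, (p n).2 x = T k (p n).1 x := ae_all_iff.mpr h3
  obtain ⟨ns, hns, hns'⟩ := (tendstoInMeasure_of_tendsto_Lp h2).exists_seq_tendsto_ae
  have h5 : (q.2 : ℝ → ℂ) =ᵐ[μ] T k q.1 := by
    filter_upwards [h4, hns'] with x hx hx'
    have a1 : Tendsto (fun i => T k (p (ns i)).1 x) atTop (𝓝 (T k q.1 x)) :=
      ((continuous_section hk x).tendsto q.1).comp (h1.comp hns.tendsto_atTop)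
    have a2 : (fun i => T k (p (ns i)).1 x) = fun i => (p (ns i)).2 x := by
      funext i; rw [hx]
    rw [a2] at a1
    exact tendsto_nhds_unique hx' a1
  have h6 : q.1 ∈ dom (maxOp μ k hk) := by
    rw [mem_maxOp]
    exact (memLp_congr_ae h5).mp (Lp.memLp q.2)
  refine ⟨h6, ?_⟩
  apply Lp.ext
  exact (maxOp_ae q.1 h6).trans h5.symm

end maximal

section example_

/-- the weight `|⌊x⌋| + 1` -/
noncomputable def w (n : ℤ) : ℝ := |(n : ℝ)| + 1

lemma w_pos (n : ℤ) : 0 < w n := by unfold w; positivity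

/-- the kernel of `B` -/
noncomputable def kB (x y : ℝ) : ℂ := if ⌊y⌋ = ⌊x⌋ then (w ⌊x⌋ : ℂ) else 0

/-- the kernel of `A` -/
noncomputable def kA (x y : ℝ) : ℂ := if ⌊x⌋ = 0 then ((w ⌊y⌋)⁻¹ : ℝ) else 0

lemma measurable_w : Measurable w := measurable_of_countable w

lemma measurable_kB : Measurable (Function.uncurry kB) := by
  have h : Measurable (fun p : ℤ × ℤ => if p.2 = p.1 then (w p.1 : ℂ) else 0) :=
    measurable_of_countable _
  exact h.comp ((Int.measurable_floor.comp measurable_fst).prodMk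
    (Int.measurable_floor.comp measurable_snd))

lemma measurable_kA : Measurable (Function.uncurry kA) := by
  have h : Measurable (fun p : ℤ × ℤ => if p.1 = 0 then (((w p.2)⁻¹ : ℝ) : ℂ) else 0) :=
    measurable_of_countable _
  exact h.comp ((Int.measurable_floor.comp measurable_fst).prodMk
    (Int.measurable_floor.comp measurable_snd))

/-- the unit cell with index `n` -/
def cell (n : ℤ) : Set ℝ := Set.Ico (n : ℝ) (n + 1)

lemma mem_cell {n : ℤ} {x : ℝ} : x ∈ cell n ↔ ⌊x⌋ = n := by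
  rw [cell, Set.mem_Ico, Int.floor_eq_iff]

lemma measurableSet_cell (n : ℤ) : MeasurableSet (cell n) := measurableSet_Ico

/-- functions constant on cells and vanishing on all but finitely many cells are in `L²` -/
lemma memLp_cells (F : ℤ → ℂ) (R : ℕ) (hF : ∀ n : ℤ, (R : ℤ) < |n| → F n = 0) :
    MemLp (fun x : ℝ => F ⌊x⌋) 2 volume := by
  have : (fun x : ℝ => F ⌊x⌋) =
      ∑ n ∈ Finset.Icc (-(R : ℤ)) R, (cell n).indicator (fun _ => F n) := by
    funext x
    rw [Finset.sum_apply]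
    by_cases hx : |⌊x⌋| ≤ (R : ℤ)
    · rw [Finset.sum_eq_single ⌊x⌋]
      · rw [Set.indicator_of_mem (mem_cell.mpr rfl)]
      · intro n _ hn
        rw [Set.indicator_of_notMem]
        intro h
        exact hn (mem_cell.mp h).symm
      · intro h
        exact absurd (Finset.mem_Icc.mpr (abs_le.mp hx)) h
    · rw [hF _ (not_le.mp hx)]
      symm
      refine Finset.sum_eq_zero fun n hn => ?_
      rw [Set.indicator_of_notMem]
      intro h
      apply hx
      rw [mem_cell.mp h]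
      exact abs_le.mpr (Finset.mem_Icc.mp hn)
  rw [this]
  refine memLp_finsetSum' _ fun n _ => ?_
  refine memLp_indicator_const 2 (measurableSet_cell n) _ (Or.inr ?_)
  rw [cell, Real.volume_Ico]
  exact ENNReal.ofReal_ne_top

lemma memLp_kB (x : ℝ) : MemLp (kB x) 2 volume := by
  refine memLp_cells (fun n => if n = ⌊x⌋ then (w ⌊x⌋ : ℂ) else 0) (⌊x⌋.natAbs) ?_
  intro n hn
  rw [if_neg]
  rintro rfl
  simp at hn

lemma memLp_inv_w : MemLp (fun y : ℝ => (((w ⌊y⌋)⁻¹ : ℝ) : ℂ)) 2 volume := by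
  have hm : Measurable (fun y : ℝ => (((w ⌊y⌋)⁻¹ : ℝ) : ℂ)) :=
    (measurable_of_countable (fun n : ℤ => (((w n)⁻¹ : ℝ) : ℂ))).comp Int.measurable_floor
  rw [memLp_two_iff_integrable_sq_norm hm.aestronglyMeasurable]
  refine Integrable.mono' (integrable_inv_one_add_sq.const_mul 2)
    (hm.norm.pow_const 2).aestronglyMeasurable (Eventually.of_forall fun y => ?_)
  have h1 : |y| ≤ w ⌊y⌋ := by
    unfold w
    have a := Int.floor_le y
    have b := (Int.lt_floor_add_one y).le
    rw [abs_le]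
    constructor
    · have := neg_abs_le (⌊y⌋ : ℝ); linarith
    · have := le_abs_self (⌊y⌋ : ℝ); linarith
  have h2 : 1 ≤ w ⌊y⌋ := by
    unfold w
    have := abs_nonneg (⌊y⌋ : ℝ); linarith
  have h3 := w_pos ⌊y⌋
  rw [Real.norm_eq_abs, abs_of_nonneg (by positivity), Complex.norm_real, Real.norm_eq_abs,
    abs_of_pos (inv_pos.mpr h3), inv_pow, ← div_eq_mul_inv]
  rw [inv_eq_one_div, div_le_div_iff₀ (by positivity) (by positivity)]
  have h4 : y ^ 2 ≤ (w ⌊y⌋) ^ 2 := by
    rw [← sq_abs]; gcongr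
  nlinarith

lemma memLp_kA (x : ℝ) : MemLp (kA x) 2 volume := by
  unfold kA
  by_cases h : ⌊x⌋ = 0
  · simp only [h, if_true]
    exact memLp_inv_w
  · simp only [h, if_false]
    exact MemLp.zero

/-- the operator `B` -/
noncomputable def B : OL volume := maxOp volume kB memLp_kB

/-- the operator `A` -/
noncomputable def A : OL volume := maxOp volume kA memLp_kA

lemma T_kB (f : LL volume) (x : ℝ) : T kB f x = w ⌊x⌋ * ∫ y in cell ⌊x⌋, f y := by
  rw [T, ← integral_const_mul, ← integral_indicator (measurableSet_cell _)]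
  refine integral_congr_ae (Eventually.of_forall fun y => ?_)
  simp only [kB]
  by_cases h : ⌊y⌋ = ⌊x⌋
  · rw [if_pos h, Set.indicator_of_mem (mem_cell.mpr h)]
  · rw [if_neg h, Set.indicator_of_notMem (fun h' => h (mem_cell.mp h')), zero_mul]

lemma T_kA (f : LL volume) (x : ℝ) :
    T kA f x = if ⌊x⌋ = 0 then ∫ y, (((w ⌊y⌋)⁻¹ : ℝ) : ℂ) * f y else 0 := by
  rw [T]
  by_cases h : ⌊x⌋ = 0
  · simp only [kA, h, if_true]
  · simp only [kA, h, if_false, zero_mul, integral_zero]

lemma domain_A : dom A = Set.univ := by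
  rw [Set.eq_univ_iff_forall]
  intro f
  rw [A, mem_maxOp]
  set F : ℤ → ℂ := fun n : ℤ => if n = 0 then ∫ y, (((w ⌊y⌋)⁻¹ : ℝ) : ℂ) * f y else 0 with hF
  have : T kA f = fun x : ℝ => F ⌊x⌋ := by
    funext x
    rw [T_kA]
  change MemLp (T kA f) 2 volume
  rw [this]
  refine memLp_cells F 0 ?_
  intro n hn
  rw [hF]
  refine if_neg ?_
  rintro rfl
  simp at hn

/-- functions vanishing outside a bounded set are in the domain of `B` -/
lemma mem_domain_B (f : LL volume) (R : ℕ)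
    (hf : ∀ᵐ x ∂(volume : Measure ℝ), (R : ℤ) < |⌊x⌋| → f x = 0) : f ∈ dom B := by
  rw [B, mem_maxOp]
  set F : ℤ → ℂ := fun n : ℤ => (w n : ℂ) * ∫ y in cell n, f y with hF
  have : T kB f = fun x : ℝ => F ⌊x⌋ := by
    funext x
    rw [T_kB]
  change MemLp (T kB f) 2 volume
  rw [this]
  refine memLp_cells F R ?_
  intro n hn
  change (w n : ℂ) * ∫ y in cell n, f y = 0
  have : ∫ y in cell n, f y = 0 := by
    rw [← integral_zero ℝ ℂ (μ := volume.restrict (cell n))]
    refine integral_congr_ae ?_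
    rw [EventuallyEq, ae_restrict_iff' (measurableSet_cell n)]
    filter_upwards [hf] with y hy hy'
    exact hy (by rw [mem_cell.mp hy']; exact hn)
  rw [this, mul_zero]

lemma floor_bound (x : ℝ) : |(⌊x⌋ : ℝ)| ≤ |x| + 1 := by
  have a := Int.floor_le x
  have b := (Int.lt_floor_add_one x).le
  rw [abs_le]
  constructor
  · have := neg_abs_le x; linarith
  · have := le_abs_self x; linarith

lemma dense_B : Dense (dom B) := by
  refine (Lp.dense_hasCompactSupport_contDiff (E := ℝ) (F := ℂ) (μ := volume) (p := 2)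
    (by simp)).mono ?_
  rintro f ⟨g, hfg, hg, -⟩
  obtain ⟨C, hC⟩ := hg.isCompact.isBounded.subset_closedBall 0
  refine mem_domain_B f (⌈C⌉₊ + 1) ?_
  filter_upwards [hfg] with x hx hx'
  rw [hx]
  by_contra hne
  have h1 : x ∈ tsupport g := subset_tsupport g hne
  have h2 := hC h1
  rw [Metric.mem_closedBall, dist_zero_right, Real.norm_eq_abs] at h2
  have h3 := floor_bound x
  have h4 : ((⌈C⌉₊ + 1 : ℕ) : ℝ) < |(⌊x⌋ : ℝ)| := by exact_mod_cast hx'
  have h5 := Nat.le_ceil C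
  push_cast at h4
  linarith

/-- the function `1_{[0,N)}` -/
noncomputable def fN (N : ℕ) : LL volume :=
  indicatorConstLp 2 (measurableSet_Ico : MeasurableSet (Set.Ico (0 : ℝ) N))
    (by rw [Real.volume_Ico]; exact ENNReal.ofReal_ne_top) (1 : ℂ)

lemma fN_ae (N : ℕ) : (fN N : ℝ → ℂ) =ᵐ[volume] (Set.Ico (0 : ℝ) N).indicator fun _ => 1 :=
  indicatorConstLp_coeFn

lemma fN_mem (N : ℕ) : fN N ∈ dom B := by
  refine mem_domain_B _ N ?_
  filter_upwards [fN_ae N] with x hx hx'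
  rw [hx, Set.indicator_of_notMem]
  rintro ⟨h1, h2⟩
  have h3 : 0 ≤ ⌊x⌋ := Int.floor_nonneg.mpr h1
  rw [abs_of_nonneg h3] at hx'
  have h4 : (N : ℝ) < ⌊x⌋ := by exact_mod_cast hx'
  have h5 := Int.floor_le x
  linarith

lemma integral_cell_fN (N : ℕ) (n : ℤ) :
    ∫ y in cell n, fN N y = if 0 ≤ n ∧ n < N then 1 else 0 := by
  have h1 : ∫ y in cell n, fN N y = ∫ y in cell n, (Set.Ico (0 : ℝ) N).indicator (fun _ => (1:ℂ)) y :=
    integral_congr_ae (ae_restrict_of_ae (fN_ae N))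
  rw [h1]
  by_cases h : 0 ≤ n ∧ n < N
  · rw [if_pos h]
    have h2 : ∫ y in cell n, (Set.Ico (0 : ℝ) N).indicator (fun _ => (1:ℂ)) y =
        ∫ y in cell n, (1 : ℂ) := by
      refine setIntegral_congr_fun (measurableSet_cell n) fun y hy => ?_
      refine Set.indicator_of_mem ?_ _
      have a : (0 : ℝ) ≤ n := by exact_mod_cast h.1
      have b : (n : ℝ) + 1 ≤ N := by exact_mod_cast h.2
      exact ⟨a.trans hy.1, hy.2.trans_le b⟩
    rw [h2, setIntegral_const, cell, Measure.real, Real.volume_Ico]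
    simp
  · rw [if_neg h]
    have h2 : ∫ y in cell n, (Set.Ico (0 : ℝ) N).indicator (fun _ => (1:ℂ)) y =
        ∫ y in cell n, (0 : ℂ) := by
      refine setIntegral_congr_fun (measurableSet_cell n) fun y hy => ?_
      refine Set.indicator_of_notMem ?_ _
      rintro ⟨a, b⟩
      apply h
      rw [← mem_cell.mp hy]
      refine ⟨Int.floor_nonneg.mpr a, ?_⟩
      rw [Int.floor_lt]
      exact_mod_cast b
    rw [h2, integral_zero]

lemma T_kA_B_fN (N : ℕ) (x : ℝ) :
    T kA (app B (fN N) (fN_mem N)) x = if ⌊x⌋ = 0 then (N : ℂ) else 0 := by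
  rw [T_kA]
  congr 1
  have h0 : (app B (fN N) (fN_mem N) : ℝ → ℂ) =ᵐ[volume] T kB (fN N) :=
    maxOp_ae (k := kB) (hk := memLp_kB) (fN N) (fN_mem N)
  have h1 : ∫ y, (((w ⌊y⌋)⁻¹ : ℝ) : ℂ) * (app B (fN N) (fN_mem N) : LL volume) y =
      ∫ y, (Set.Ico (0 : ℝ) N).indicator (fun _ => (1:ℂ)) y := by
    refine integral_congr_ae ?_
    filter_upwards [h0] with y hy
    rw [hy, T_kB, integral_cell_fN, ← mul_assoc]
    have hw := (w_pos ⌊y⌋).ne'
    have e : (((w ⌊y⌋)⁻¹ : ℝ) : ℂ) * (w ⌊y⌋ : ℂ) = 1 := by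
      rw [← Complex.ofReal_mul, inv_mul_cancel₀ hw, Complex.ofReal_one]
    rw [e, one_mul]
    by_cases h : 0 ≤ ⌊y⌋ ∧ ⌊y⌋ < N
    · rw [if_pos h, Set.indicator_of_mem]
      refine ⟨Int.floor_nonneg.mp h.1, ?_⟩
      have := Int.floor_lt.mp h.2
      exact_mod_cast this
    · rw [if_neg h, Set.indicator_of_notMem]
      rintro ⟨a, b⟩
      apply h
      refine ⟨Int.floor_nonneg.mpr a, ?_⟩
      rw [Int.floor_lt]
      exact_mod_cast b
  rw [h1, integral_indicator measurableSet_Ico, setIntegral_const, Measure.real, Real.volume_Ico]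
  simp

lemma mem_A (f : LL volume) : f ∈ dom A := by rw [domain_A]; trivial

lemma fN_mem_product (N : ℕ) : fN N ∈ dom (product A B) :=
  (mem_dom_product A B _).mpr ⟨fN_mem N, mem_A _⟩

lemma product_fN (N : ℕ) :
    (app (product A B) (fN N) (fN_mem_product N) : ℝ → ℂ) =ᵐ[volume]
      fun x => if ⌊x⌋ = 0 then (N : ℂ) else 0 := by
  rw [app_product A B (fN N) _ (fN_mem N) (mem_A _)]
  refine (maxOp_ae (k := kA) (hk := memLp_kA) _ _).trans (Eventually.of_forall fun x => ?_)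
  exact T_kA_B_fN N x

lemma not_carleman : ¬ IsCarl (product A B) := by
  rintro ⟨k, ⟨-, hk⟩, hrep⟩
  have h1 : ∀ᵐ x ∂(volume : Measure ℝ), ∀ N : ℕ,
      (if ⌊x⌋ = 0 then (N : ℂ) else 0) = ∫ y in Set.Ico (0 : ℝ) N, k x y := by
    rw [ae_all_iff]
    intro N
    filter_upwards [product_fN N, hrep (fN N) (fN_mem_product N)] with x hx hx'
    rw [← hx, hx', ← integral_indicator measurableSet_Ico]
    refine integral_congr_ae ?_
    filter_upwards [fN_ae N] with y hy
    rw [hy]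
    by_cases h : y ∈ Set.Ico (0 : ℝ) N
    · rw [Set.indicator_of_mem h, Set.indicator_of_mem h, mul_one]
    · rw [Set.indicator_of_notMem h, Set.indicator_of_notMem h, mul_zero]
  have h2 : ∃ᵐ x ∂(volume : Measure ℝ), x ∈ Set.Ico (0 : ℝ) 1 := by
    rw [frequently_ae_mem_iff, Real.volume_Ico]
    simp
  obtain ⟨x, hx, hx1, hx2⟩ := (h2.and_eventually (h1.and hk)).exists
  have hfl : ⌊x⌋ = 0 := by
    rw [Int.floor_eq_zero_iff]; exact hx
  have hint : Integrable (fun y => ‖k x y‖ ^ 2) volume :=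
    (memLp_two_iff_integrable_sq_norm hx2.1).mp hx2
  set C : ℝ := ∫ y, ‖k x y‖ ^ 2 with hC
  obtain ⟨N, hN⟩ := exists_nat_gt C
  have e := hx1 N
  rw [if_pos hfl] at e
  have hvol : volume (Set.Ico (0 : ℝ) N) ≠ ⊤ := by
    rw [Real.volume_Ico]; exact ENNReal.ofReal_ne_top
  have e1 : (N : ℝ) ≤ ∫ y in Set.Ico (0 : ℝ) N, ‖k x y‖ := by
    calc (N : ℝ) = ‖(N : ℂ)‖ := by simp
      _ = ‖∫ y in Set.Ico (0 : ℝ) N, k x y‖ := by rw [e]
      _ ≤ _ := norm_integral_le_integral_norm _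
  have hkint : IntegrableOn (fun y => ‖k x y‖) (Set.Ico (0 : ℝ) N) volume := by
    have : MemLp (k x) 2 (volume.restrict (Set.Ico (0 : ℝ) N)) := hx2.restrict _
    have hfin : IsFiniteMeasure (volume.restrict (Set.Ico (0 : ℝ) N)) :=
      ⟨by rw [Measure.restrict_apply_univ]; exact lt_top_iff_ne_top.mpr hvol⟩
    exact (this.integrable (by norm_num)).norm
  have e2 : ∫ y in Set.Ico (0 : ℝ) N, ‖k x y‖ ≤
      ∫ y in Set.Ico (0 : ℝ) N, (2⁻¹ * ‖k x y‖ ^ 2 + 2⁻¹) := by
    refine integral_mono hkint ?_ fun y => ?_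
    · refine Integrable.add (hint.restrict.const_mul _) ?_
      exact integrableOn_const hvol
    · nlinarith [sq_nonneg (‖k x y‖ - 1)]
  have e3 : ∫ y in Set.Ico (0 : ℝ) N, (2⁻¹ * ‖k x y‖ ^ 2 + 2⁻¹) =
      2⁻¹ * (∫ y in Set.Ico (0 : ℝ) N, ‖k x y‖ ^ 2) + 2⁻¹ * N := by
    rw [integral_add (hint.restrict.const_mul _) (integrableOn_const hvol),
      integral_const_mul, setIntegral_const, Measure.real, Real.volume_Ico]
    simp [mul_comm]
  have e4 : ∫ y in Set.Ico (0 : ℝ) N, ‖k x y‖ ^ 2 ≤ C :=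
    setIntegral_le_integral hint (Eventually.of_forall fun y => by positivity)
  linarith

end example_

/-- A product of Carleman operators need not be a Carleman operator: on some `L²(a,b)` there are
Carleman operators `A`, `B` such that `AB` is not a Carleman operator. Moreover `A` can be taken
everywhere defined and closed (hence bounded) and `B` densely defined and closed. -/
theorem result : ∃ a b : EReal, a < b ∧ ∃ A B : Op (leb a b),
    IsCarlemanOperator A ∧ IsCarlemanOperator B ∧ ¬ IsCarlemanOperator (product A B) ∧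
    A.domain = ⊤ ∧ A.IsClosed ∧ Dense (B.domain : Set (L2 (leb a b))) ∧ B.IsClosed := by
  refine ⟨⊥, ⊤, bot_lt_top, ?_⟩
  have h : leb ⊥ ⊤ = volume := by
    have : interval ⊥ ⊤ = Set.univ := by
      ext x; simp [interval, EReal.bot_lt_coe, EReal.coe_lt_top]
    rw [leb, this, Measure.restrict_univ]
  rw [h]
  refine ⟨A, B, (isCarl_iff A).mp (isCarleman_maxOp memLp_kA measurable_kA.aestronglyMeasurable),
    (isCarl_iff B).mp (isCarleman_maxOp memLp_kB measurable_kB.aestronglyMeasurable),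
    fun hc => not_carleman ((isCarl_iff (product A B)).mpr hc), ?_,
    (closed_iff A).mp (isClosed_maxOp memLp_kA), dense_B, (closed_iff B).mp (isClosed_maxOp memLp_kB)⟩
  rw [eq_top_iff]
  intro f _
  exact mem_A f

end Pool.Agent.Results.MP_fd0bc0_an.ProductNotCarleman
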